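import Pool.Agent.H42.Cubes.Data

namespace Pool.Agent.H42.Cubes

theorem closed3 : all (fun n => chk3 (dec3 n)) L3 = true := by decide +kernel

end Pool.Agent.H42.Cubes
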