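import Pool.Agent.H42.Cubes.Data

namespace Pool.Agent.H42.Cubes

theorem closed4 : all (fun n => chk4 (dec4 n)) L4 = true := by decide +kernel

theorem root4 : inT4 ⟨0, 0, 0, 0, false, false, false, ⟨0, 0, 0, 0⟩, ⟨0, 0, 0, 0⟩⟩ = true := by
  decide +kernel

end Pool.Agent.H42.Cubes
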