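import Mathlib.Tactic.Linarith
import Pool.Agent.H42.Cubes.Data

/-!
# Correctness of the encoding of states and of the search trees
-/

namespace Pool.Agent.H42.Cubes

lemma all_iff (p : Nat → Bool) (l : List Nat) : all p l = true ↔ ∀ n ∈ l, p n = true := by
  induction l with
  | nil => simp [all]
  | cons a l ih =>
    simp only [all, List.mem_cons, forall_eq_or_imp]
    cases h : p a <;> simp [ih]

lemma Tree.mem_toList (t : Tree) (x : Nat) (h : t.mem x = true) : x ∈ t.toList := by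
  induction t with
  | leaf => simp [Tree.mem] at h
  | node l k r ihl ihr =>
    simp only [Tree.mem] at h
    simp only [Tree.toList, List.mem_append, List.mem_cons]
    cases h1 : Nat.beq x k
    · rw [h1] at h
      cases h2 : Nat.ble x k
      · rw [h2] at h
        exact Or.inr (Or.inr (ihr h))
      · rw [h2] at h
        exact Or.inl (ihl h)
    · exact Or.inr (Or.inl (Nat.eq_of_beq_eq_true h1))

lemma build_spec (d : Nat) (xs : List Nat) :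
    (build d xs).1.toList ++ (build d xs).2 = xs := by
  induction d generalizing xs with
  | zero => rfl
  | succ d ih =>
    have h1 := ih xs
    simp only [build]
    rcases hb : build d xs with ⟨l, ys⟩
    rw [hb] at h1
    simp only at h1
    cases ys with
    | nil => simpa using h1
    | cons y zs =>
      have h2 := ih zs
      rcases hb2 : build d zs with ⟨r, ws⟩
      rw [hb2] at h2
      simp only at h2
      simp only [Tree.toList, List.append_assoc, List.cons_append, hb2]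
      rw [h2, h1]

lemma mem_of_build {d : Nat} {xs : List Nat} {x : Nat} (h : (build d xs).1.mem x = true) :
    x ∈ xs := by
  rw [← build_spec d xs]
  exact List.mem_append_left _ (Tree.mem_toList _ _ h)

lemma okI_spec (x : Int) (h : okI x = true) : encI x < 16 ∧ decI (encI x) = x := by
  unfold okI at h
  unfold encI decI
  split at h
  · rename_i n hn
    have hlt : n < 16 := by simpa using h
    rw [hn]
    refine ⟨hlt, ?_⟩
    rw [Int.subNatNat_eq_coe]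
    simp only [Int.ofNat_eq_natCast, Int.toNat_natCast] at *
    omega
  · simp at h

lemma okV_spec (v : V) (h : okV v = true) : encV v < 65536 ∧ decV (encV v) = v := by
  obtain ⟨a, b, c, d⟩ := v
  simp only [okV, Bool.and_eq_true] at h
  obtain ⟨ha, hb, hc, hd⟩ := h
  obtain ⟨ha1, ha2⟩ := okI_spec a ha
  obtain ⟨hb1, hb2⟩ := okI_spec b hb
  obtain ⟨hc1, hc2⟩ := okI_spec c hc
  obtain ⟨hd1, hd2⟩ := okI_spec d hd
  simp only [encV, decV]
  refine ⟨by omega, ?_⟩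
  have e1 : (encI a + 16 * (encI b + 16 * (encI c + 16 * encI d))) % 16 = encI a := by omega
  have e2 : (encI a + 16 * (encI b + 16 * (encI c + 16 * encI d))) / 16 % 16 = encI b := by omega
  have e3 : (encI a + 16 * (encI b + 16 * (encI c + 16 * encI d))) / 256 % 16 = encI c := by omega
  have e4 : (encI a + 16 * (encI b + 16 * (encI c + 16 * encI d))) / 4096 % 16 = encI d := by omega
  rw [e1, e2, e3, e4, ha2, hb2, hc2, hd2]

lemma encB_spec (b : Bool) : encB b < 2 ∧ decB (encB b) = b := by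
  cases b <;> exact ⟨by decide, rfl⟩

lemma dec3_enc3 (s : S3) (h0 : s.b0 < 4) (h1 : s.b1 < 4) (h2 : s.b2 < 4) (hD : okV s.D = true) :
    dec3 (enc3 s) = s := by
  obtain ⟨b0, b1, b2, f0, f1, D⟩ := s
  simp only at h0 h1 h2 hD
  obtain ⟨d1, d2⟩ := okV_spec D hD
  obtain ⟨p1, p2⟩ := encB_spec f0
  obtain ⟨q1, q2⟩ := encB_spec f1
  simp only [enc3, dec3]
  generalize encB f0 = F0 at *
  generalize encB f1 = F1 at *
  generalize encV D = E at *
  have e1 : (b0 + 4 * (b1 + 4 * (b2 + 4 * (F0 + 2 * (F1 + 2 * E))))) % 4 = b0 := by omega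
  have e2 : (b0 + 4 * (b1 + 4 * (b2 + 4 * (F0 + 2 * (F1 + 2 * E))))) / 4 % 4 = b1 := by omega
  have e3 : (b0 + 4 * (b1 + 4 * (b2 + 4 * (F0 + 2 * (F1 + 2 * E))))) / 16 % 4 = b2 := by omega
  have e4 : (b0 + 4 * (b1 + 4 * (b2 + 4 * (F0 + 2 * (F1 + 2 * E))))) / 64 % 2 = F0 := by omega
  have e5 : (b0 + 4 * (b1 + 4 * (b2 + 4 * (F0 + 2 * (F1 + 2 * E))))) / 128 % 2 = F1 := by omega
  have e6 : (b0 + 4 * (b1 + 4 * (b2 + 4 * (F0 + 2 * (F1 + 2 * E))))) / 256 = E := by omega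
  rw [e1, e2, e3, e4, e5, e6, d2, p2, q2]

lemma dec4_enc4 (s : S4) (h0 : s.b0 < 4) (h1 : s.b1 < 4) (h2 : s.b2 < 4) (h3 : s.b3 < 4)
    (hD : okV s.D = true) (hE : okV s.E = true) : dec4 (enc4 s) = s := by
  obtain ⟨b0, b1, b2, b3, f0, f1, f2, D, E⟩ := s
  simp only at h0 h1 h2 h3 hD hE
  obtain ⟨d1, d2⟩ := okV_spec D hD
  obtain ⟨e1, e2⟩ := okV_spec E hE
  obtain ⟨p1, p2⟩ := encB_spec f0
  obtain ⟨q1, q2⟩ := encB_spec f1
  obtain ⟨r1, r2⟩ := encB_spec f2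
  simp only [enc4, dec4]
  generalize encB f0 = F0 at *
  generalize encB f1 = F1 at *
  generalize encB f2 = F2 at *
  generalize encV D = D' at *
  generalize encV E = E' at *
  obtain ⟨N8, h8⟩ : ∃ N8, N8 = D' + 65536 * E' := ⟨_, rfl⟩
  obtain ⟨N7, h7⟩ : ∃ N7, N7 = F2 + 2 * N8 := ⟨_, rfl⟩
  obtain ⟨N6, h6⟩ : ∃ N6, N6 = F1 + 2 * N7 := ⟨_, rfl⟩
  obtain ⟨N5, h5⟩ : ∃ N5, N5 = F0 + 2 * N6 := ⟨_, rfl⟩
  obtain ⟨N4, h4⟩ : ∃ N4, N4 = b3 + 4 * N5 := ⟨_, rfl⟩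
  obtain ⟨N3, h3'⟩ : ∃ N3, N3 = b2 + 4 * N4 := ⟨_, rfl⟩
  obtain ⟨N2, h2'⟩ : ∃ N2, N2 = b1 + 4 * N3 := ⟨_, rfl⟩
  obtain ⟨N, h1'⟩ : ∃ N, N = b0 + 4 * N2 := ⟨_, rfl⟩
  rw [← h8, ← h7, ← h6, ← h5, ← h4, ← h3', ← h2', ← h1']
  have k2 : N / 4 = N2 := by clear h8 h7 h6 h5 h4 h3' h2'; omega
  have k3 : N / 16 = N3 := by
    rw [show 16 = 4 * 4 by norm_num, ← Nat.div_div_eq_div_mul, k2]
    clear h8 h7 h6 h5 h4 h3' h1' k2; omega
  have k4 : N / 64 = N4 := by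
    rw [show 64 = 16 * 4 by norm_num, ← Nat.div_div_eq_div_mul, k3]
    clear h8 h7 h6 h5 h4 h2' h1' k2 k3; omega
  have k5 : N / 256 = N5 := by
    rw [show 256 = 64 * 4 by norm_num, ← Nat.div_div_eq_div_mul, k4]
    clear h8 h7 h6 h5 h3' h2' h1' k2 k3 k4; omega
  have k6 : N / 512 = N6 := by
    rw [show 512 = 256 * 2 by norm_num, ← Nat.div_div_eq_div_mul, k5]
    clear h8 h7 h6 h4 h3' h2' h1' k2 k3 k4 k5; omega
  have k7 : N / 1024 = N7 := by
    rw [show 1024 = 512 * 2 by norm_num, ← Nat.div_div_eq_div_mul, k6]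
    clear h8 h7 h5 h4 h3' h2' h1' k2 k3 k4 k5 k6; omega
  have k8 : N / 2048 = N8 := by
    rw [show 2048 = 1024 * 2 by norm_num, ← Nat.div_div_eq_div_mul, k7]
    clear h8 h6 h5 h4 h3' h2' h1' k2 k3 k4 k5 k6 k7; omega
  have k9 : N / 134217728 = E' := by
    rw [show 134217728 = 2048 * 65536 by norm_num, ← Nat.div_div_eq_div_mul, k8]
    clear h7 h6 h5 h4 h3' h2' h1' k2 k3 k4 k5 k6 k7 k8; omega
  have g1 : N % 4 = b0 := by clear h8 h7 h6 h5 h4 h3' h2' k2 k3 k4 k5 k6 k7 k8 k9; omega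
  have g2 : N2 % 4 = b1 := by clear h8 h7 h6 h5 h4 h3' h1' k2 k3 k4 k5 k6 k7 k8 k9; omega
  have g3 : N3 % 4 = b2 := by clear h8 h7 h6 h5 h4 h2' h1' k2 k3 k4 k5 k6 k7 k8 k9; omega
  have g4 : N4 % 4 = b3 := by clear h8 h7 h6 h5 h3' h2' h1' k2 k3 k4 k5 k6 k7 k8 k9; omega
  have g5 : N5 % 2 = F0 := by clear h8 h7 h6 h4 h3' h2' h1' k2 k3 k4 k5 k6 k7 k8 k9; omega
  have g6 : N6 % 2 = F1 := by clear h8 h7 h5 h4 h3' h2' h1' k2 k3 k4 k5 k6 k7 k8 k9; omega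
  have g7 : N7 % 2 = F2 := by clear h8 h6 h5 h4 h3' h2' h1' k2 k3 k4 k5 k6 k7 k8 k9; omega
  have g8 : N8 % 65536 = D' := by clear h7 h6 h5 h4 h3' h2' h1' k2 k3 k4 k5 k6 k7 k8 k9; omega
  rw [k2, k3, k4, k5, k6, k7, k8, k9]
  rw [g1, g2, g3, g4, g5, g6, g7, g8, d2, e2, p2, q2, r2]

lemma inT3_spec (s : S3) (h0 : s.b0 < 4) (h1 : s.b1 < 4) (h2 : s.b2 < 4) (h : inT3 s = true) :
    ∃ n ∈ L3, s = dec3 n := by
  simp only [inT3, Bool.and_eq_true] at h
  exact ⟨enc3 s, mem_of_build h.2, (dec3_enc3 s h0 h1 h2 h.1).symm⟩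

lemma inT4_spec (s : S4) (h0 : s.b0 < 4) (h1 : s.b1 < 4) (h2 : s.b2 < 4) (h3 : s.b3 < 4)
    (h : inT4 s = true) : ∃ n ∈ L4, s = dec4 n := by
  simp only [inT4, Bool.and_eq_true] at h
  exact ⟨enc4 s, mem_of_build h.2.2, (dec4_enc4 s h0 h1 h2 h3 h.1 h.2.1).symm⟩

end Pool.Agent.H42.Cubes
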