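import Mathlib.Data.Nat.Notation

/-!
# Additive cubes over {0,1,2,3}: the finite data

The word is `h(φ^ω(0))` with `φ : 0 ↦ 02, 1 ↦ 32, 2 ↦ 1, 3 ↦ 01` and
`h : 0 ↦ 231, 1 ↦ 233, 2 ↦ 210, 3 ↦ 230200`.

States: three (or four) pointers into the words `φ^n(0)`, recorded by the letters they point to,
by the strictness of the inequalities between consecutive pointers, and by the second differences
of the Parikh vectors of the prefixes in front of the pointers.
-/

namespace Pool.Agent.H42.Cubes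

/-- Integer vectors indexed by the four letters. -/
structure V where
  a : Int
  b : Int
  c : Int
  d : Int

/-- The matrix of the morphism `φ`. -/
def Mv (v : V) : V := ⟨v.a + v.d, v.c + v.d, v.a + v.b, v.b⟩

/-- Parikh vector of the prefix of length `i` of `φ b`, for `i < |φ b|`. -/
def qv : Nat → Nat → V
  | 0, 1 => ⟨1, 0, 0, 0⟩
  | 1, 1 => ⟨0, 0, 0, 1⟩
  | 3, 1 => ⟨1, 0, 0, 0⟩
  | _, _ => ⟨0, 0, 0, 0⟩

/-- The letter at position `i` of `φ b`. -/
def cl : Nat → Nat → Nat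
  | 0, 0 => 0
  | 0, _ => 2
  | 1, 0 => 3
  | 1, _ => 2
  | 2, _ => 1
  | _, 0 => 0
  | _, _ => 1

/-- The length of `φ b`. -/
def pl : Nat → Nat
  | 2 => 1
  | _ => 2

/-- `x - 2 y + z`. -/
def sd (x y z : V) : V :=
  ⟨x.a - 2 * y.a + z.a, x.b - 2 * y.b + z.b, x.c - 2 * y.c + z.c, x.d - 2 * y.d + z.d⟩

def add (x y : V) : V := ⟨x.a + y.a, x.b + y.b, x.c + y.c, x.d + y.d⟩

/-- Second difference of the children. -/
def ch (D x y z : V) : V := add (Mv D) (sd x y z)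

structure S3 where
  b0 : Nat
  b1 : Nat
  b2 : Nat
  f0 : Bool
  f1 : Bool
  D : V

structure S4 where
  b0 : Nat
  b1 : Nat
  b2 : Nat
  b3 : Nat
  f0 : Bool
  f1 : Bool
  f2 : Bool
  D : V
  E : V

def S4.left (s : S4) : S3 := ⟨s.b0, s.b1, s.b2, s.f0, s.f1, s.D⟩
def S4.right (s : S4) : S3 := ⟨s.b1, s.b2, s.b3, s.f1, s.f2, s.E⟩

def F1 (D : V) : Int := 100 * D.a + 117 * D.b + 69 * D.c + 128 * D.d
def F2 (D : V) : Int := 100 * D.a + 377 * D.b - 251 * D.c - 317 * D.d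
def G1 (D : V) : Int := 100 * D.a - 47 * D.b - 59 * D.c + 44 * D.d
def G2 (D : V) : Int := 9 * D.b - 48 * D.c + 74 * D.d

def X (D : V) : Nat := max (9 * (F1 D).natAbs) (2 * (F2 D).natAbs)

/-- The escape cone. -/
def cone (D : V) : Bool :=
  Nat.ble 3501 (X D) && (Nat.ble (50 * (G1 D).natAbs) (11 * X D) &&
    (Nat.ble (50 * (G2 D).natAbs) (11 * X D) &&
    (Nat.ble (250 * (G1 D + G2 D).natAbs) (77 * X D) &&
    (Nat.ble (250 * (G1 D - G2 D).natAbs) (77 * X D)))))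

def child3 (s : S3) (i0 i1 i2 : Nat) : S3 :=
  ⟨cl s.b0 i0, cl s.b1 i1, cl s.b2 i2, s.f0 || Nat.blt i0 i1, s.f1 || Nat.blt i1 i2,
    ch s.D (qv s.b0 i0) (qv s.b1 i1) (qv s.b2 i2)⟩

def valid3 (s : S3) (i0 i1 i2 : Nat) : Bool :=
  Nat.blt i0 (pl s.b0) && (Nat.blt i1 (pl s.b1) && (Nat.blt i2 (pl s.b2) &&
    ((s.f0 || Nat.ble i0 i1) && (s.f1 || Nat.ble i1 i2))))

def child4 (s : S4) (i0 i1 i2 i3 : Nat) : S4 :=
  ⟨cl s.b0 i0, cl s.b1 i1, cl s.b2 i2, cl s.b3 i3,
    s.f0 || Nat.blt i0 i1, s.f1 || Nat.blt i1 i2, s.f2 || Nat.blt i2 i3,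
    ch s.D (qv s.b0 i0) (qv s.b1 i1) (qv s.b2 i2), ch s.E (qv s.b1 i1) (qv s.b2 i2) (qv s.b3 i3)⟩

def valid4 (s : S4) (i0 i1 i2 i3 : Nat) : Bool :=
  Nat.blt i0 (pl s.b0) && (Nat.blt i1 (pl s.b1) && (Nat.blt i2 (pl s.b2) &&
    (Nat.blt i3 (pl s.b3) &&
    ((s.f0 || Nat.ble i0 i1) && ((s.f1 || Nat.ble i1 i2) && (s.f2 || Nat.ble i2 i3))))))

/-! ### Codes -/

def encI (x : Int) : Nat := (x + 8).toNat
def okI (x : Int) : Bool := match x + 8 with
  | .ofNat n => Nat.blt n 16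
  | .negSucc _ => false
def decI (n : Nat) : Int := Int.subNatNat n 8

def encV (v : V) : Nat := encI v.a + 16 * (encI v.b + 16 * (encI v.c + 16 * encI v.d))
def okV (v : V) : Bool := okI v.a && (okI v.b && (okI v.c && okI v.d))
def decV (n : Nat) : V :=
  ⟨decI (n % 16), decI (n / 16 % 16), decI (n / 256 % 16), decI (n / 4096 % 16)⟩

def encB (b : Bool) : Nat := bif b then 1 else 0
def decB (n : Nat) : Bool := Nat.beq n 1

def enc3 (s : S3) : Nat :=
  s.b0 + 4 * (s.b1 + 4 * (s.b2 + 4 * (encB s.f0 + 2 * (encB s.f1 + 2 * encV s.D))))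
def dec3 (n : Nat) : S3 :=
  ⟨n % 4, n / 4 % 4, n / 16 % 4, decB (n / 64 % 2), decB (n / 128 % 2), decV (n / 256)⟩

def enc4 (s : S4) : Nat :=
  s.b0 + 4 * (s.b1 + 4 * (s.b2 + 4 * (s.b3 + 4 * (encB s.f0 + 2 * (encB s.f1 +
    2 * (encB s.f2 + 2 * (encV s.D + 65536 * encV s.E)))))))
def dec4 (n : Nat) : S4 :=
  ⟨n % 4, n / 4 % 4, n / 16 % 4, n / 64 % 4, decB (n / 256 % 2), decB (n / 512 % 2),
    decB (n / 1024 % 2), decV (n / 2048 % 65536), decV (n / 134217728)⟩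

/-! ### Search trees -/

inductive Tree where
  | leaf : Tree
  | node : Tree → Nat → Tree → Tree

def Tree.mem : Tree → Nat → Bool
  | .leaf, _ => false
  | .node l k r, x =>
    bif Nat.beq x k then true else bif Nat.ble x k then l.mem x else r.mem x

def Tree.toList : Tree → List Nat
  | .leaf => []
  | .node l k r => l.toList ++ (k :: r.toList)

def decodeList : Nat → Nat → Nat → List Nat
  | 0, _, _ => []
  | n+1, w, N => (Nat.mod N w) :: decodeList n w (Nat.div N w)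

def build : Nat → List Nat → Tree × List Nat
  | 0, xs => (.leaf, xs)
  | d+1, xs =>
    match build d xs with
    | (l, ys) =>
      match ys with
      | [] => (l, [])
      | y :: zs =>
        match build d zs with
        | (r, ws) => (.node l y r, ws)

def all (p : Nat → Bool) : List Nat → Bool
  | [] => true
  | x :: xs => bif p x then all p xs else false

/-! ### The final checks -/

/-- Length of `h b`. -/
def hl : Nat → Nat
  | 3 => 6
  | _ => 3

/-- Sum of the prefix of length `i` of `h b`. -/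
def hp : Nat → Nat → Int
  | _, 0 => 0
  | _, 1 => 2
  | 0, 2 => 5
  | 1, 2 => 5
  | 2, 2 => 3
  | 3, 2 => 5
  | _, 3 => 5
  | _, _ => 7

/-- Length functional of `h`. -/
def lf (v : V) : Int := 3 * v.a + 3 * v.b + 3 * v.c + 6 * v.d
/-- Sum functional of `h`. -/
def sf (v : V) : Int := 6 * v.a + 8 * v.b + 3 * v.c + 7 * v.d

/-- Offsets `i0 i1 i2` inside the images under `h` produce three points in arithmetic progression
whose prefix sums are in arithmetic progression. -/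
def sq (s : S3) (i0 i1 i2 : Nat) : Bool :=
  Nat.blt i0 (hl s.b0) && (Nat.blt i1 (hl s.b1) && (Nat.blt i2 (hl s.b2) &&
  ((s.f0 || Nat.blt i0 i1) && ((s.f1 || Nat.blt i1 i2) &&
  (decide (lf s.D + (i0 - 2 * i1 + i2 : Int) = 0) &&
    decide (sf s.D + (hp s.b0 i0 - 2 * hp s.b1 i1 + hp s.b2 i2) = 0))))))

/-- Search for offsets: `i0`, `i1` are given, `i2` is determined. -/
def sqs (s : S3) (l t : Int) (i0 i1 : Nat) : Bool :=
  match 2 * (i1 : Int) - i0 - l with
  | .ofNat i2 =>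
    Nat.blt i2 (hl s.b2) && ((s.f0 || Nat.blt i0 i1) && ((s.f1 || Nat.blt i1 i2) &&
      decide (t + (hp s.b0 i0 - 2 * hp s.b1 i1 + hp s.b2 i2) = 0)))
  | .negSucc _ => false

def anyUpTo (p : Nat → Bool) : Nat → Bool
  | 0 => false
  | n+1 => p n || anyUpTo p n

/-- Is there a square configuration? -/
def hasSq (s : S3) : Bool :=
  Nat.ble (lf s.D).natAbs 10 && (Nat.ble (sf s.D).natAbs 14 &&
    anyUpTo (fun i0 => anyUpTo (fun i1 => sqs s (lf s.D) (sf s.D) i0 i1) (hl s.b1)) (hl s.b0))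

/-- Search for offsets of a cube: `i0`, `i1` are given, `i2`, `i3` are determined. -/
def cbs (s : S4) (l t l' t' : Int) (i0 i1 : Nat) : Bool :=
  match 2 * (i1 : Int) - i0 - l with
  | .ofNat i2 =>
    (Nat.blt i2 (hl s.b2) && ((s.f0 || Nat.blt i0 i1) && ((s.f1 || Nat.blt i1 i2) &&
      decide (t + (hp s.b0 i0 - 2 * hp s.b1 i1 + hp s.b2 i2) = 0)))) &&
      (match 2 * (i2 : Int) - i1 - l' with
      | .ofNat i3 =>
        Nat.blt i3 (hl s.b3) && ((s.f2 || Nat.blt i2 i3) &&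
          decide (t' + (hp s.b1 i1 - 2 * hp s.b2 i2 + hp s.b3 i3) = 0))
      | .negSucc _ => false)
  | .negSucc _ => false

def hasCb (s : S4) : Bool :=
  anyUpTo (fun i0 => anyUpTo (fun i1 => cbs s (lf s.D) (sf s.D) (lf s.E) (sf s.E) i0 i1)
    (hl s.b1)) (hl s.b0)

end Pool.Agent.H42.Cubes
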