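import Mathlib.Tactic.Linarith
import Mathlib.Tactic.Push
import Pool.Agent.H42.Cubes.Defs

/-!
# The escape cone is absorbing and contains no square configuration
-/

namespace Pool.Agent.H42.Cubes

/-- The cone in terms of one of its four faces `t`. -/
structure Face (D : V) (t : ℤ) : Prop where
  big : 3500 < t
  f1 : 9 * F1 D ≤ t
  f1' : -(9 * F1 D) ≤ t
  f2 : 2 * F2 D ≤ t
  f2' : -(2 * F2 D) ≤ t
  g1 : 50 * G1 D ≤ 11 * t
  g1' : -(50 * G1 D) ≤ 11 * t
  g2 : 50 * G2 D ≤ 11 * t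
  g2' : -(50 * G2 D) ≤ 11 * t
  g3 : 250 * (G1 D + G2 D) ≤ 77 * t
  g3' : -(250 * (G1 D + G2 D)) ≤ 77 * t
  g4 : 250 * (G1 D - G2 D) ≤ 77 * t
  g4' : -(250 * (G1 D - G2 D)) ≤ 77 * t

lemma cone_iff (D : V) : cone D = true ↔
    Face D (9 * F1 D) ∨ Face D (-(9 * F1 D)) ∨ Face D (2 * F2 D) ∨ Face D (-(2 * F2 D)) := by
  have hX : (X D : ℤ) = max (9 * |F1 D|) (2 * |F2 D|) := by
    unfold X
    push_cast
    rfl
  have e : cone D = true ↔ (3500 < (X D : ℤ) ∧ 50 * |G1 D| ≤ 11 * (X D : ℤ) ∧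
      50 * |G2 D| ≤ 11 * (X D : ℤ) ∧ 250 * |G1 D + G2 D| ≤ 77 * (X D : ℤ) ∧
      250 * |G1 D - G2 D| ≤ 77 * (X D : ℤ)) := by
    unfold cone
    simp only [Bool.and_eq_true, Nat.ble_eq]
    rw [Int.abs_eq_natAbs, Int.abs_eq_natAbs, Int.abs_eq_natAbs, Int.abs_eq_natAbs]
    constructor
    · rintro ⟨h1, h2, h3, h4, h5⟩
      refine ⟨by omega, by exact_mod_cast h2, by exact_mod_cast h3, by exact_mod_cast h4,
        by exact_mod_cast h5⟩
    · rintro ⟨h1, h2, h3, h4, h5⟩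
      refine ⟨by omega, by exact_mod_cast h2, by exact_mod_cast h3, by exact_mod_cast h4,
        by exact_mod_cast h5⟩
  rw [e]
  constructor
  · rintro ⟨h1, h2, h3, h4, h5⟩
    have k1 : 9 * |F1 D| ≤ (X D : ℤ) := hX ▸ le_max_left _ _
    have k2 : 2 * |F2 D| ≤ (X D : ℤ) := hX ▸ le_max_right _ _
    have l1 := le_abs_self (F1 D)
    have l1' := neg_abs_le (F1 D)
    have l2 := le_abs_self (F2 D)
    have l2' := neg_abs_le (F2 D)
    have m1 := le_abs_self (G1 D)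
    have m1' := neg_abs_le (G1 D)
    have m2 := le_abs_self (G2 D)
    have m2' := neg_abs_le (G2 D)
    have m3 := le_abs_self (G1 D + G2 D)
    have m3' := neg_abs_le (G1 D + G2 D)
    have m4 := le_abs_self (G1 D - G2 D)
    have m4' := neg_abs_le (G1 D - G2 D)
    have hf : Face D (X D : ℤ) := ⟨h1, by linarith, by linarith, by linarith, by linarith,
      by linarith, by linarith, by linarith, by linarith, by linarith, by linarith, by linarith,
      by linarith⟩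
    rcases max_choice (9 * |F1 D|) (2 * |F2 D|) with h | h
    · rcases abs_choice (F1 D) with h' | h'
      · left; rwa [hX, h, h'] at hf
      · right; left
        rw [hX, h, h'] at hf
        rwa [← mul_neg]
    · rcases abs_choice (F2 D) with h' | h'
      · right; right; left; rwa [hX, h, h'] at hf
      · right; right; right
        rw [hX, h, h'] at hf
        rwa [← mul_neg]
  · have key : ∀ t : ℤ, Face D t → t ≤ (X D : ℤ) → (3500 < (X D : ℤ) ∧ 50 * |G1 D| ≤ 11 * (X D : ℤ) ∧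
      50 * |G2 D| ≤ 11 * (X D : ℤ) ∧ 250 * |G1 D + G2 D| ≤ 77 * (X D : ℤ) ∧
      250 * |G1 D - G2 D| ≤ 77 * (X D : ℤ)) := by
      intro t hf ht
      obtain ⟨b, f1, f1', f2, f2', g1, g1', g2, g2', g3, g3', g4, g4'⟩ := hf
      refine ⟨by linarith, ?_, ?_, ?_, ?_⟩
      · rcases abs_choice (G1 D) with h | h <;> rw [h] <;> linarith
      · rcases abs_choice (G2 D) with h | h <;> rw [h] <;> linarith
      · rcases abs_choice (G1 D + G2 D) with h | h <;> rw [h] <;> linarith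
      · rcases abs_choice (G1 D - G2 D) with h | h <;> rw [h] <;> linarith
    have k1 : 9 * |F1 D| ≤ (X D : ℤ) := hX ▸ le_max_left _ _
    have k2 : 2 * |F2 D| ≤ (X D : ℤ) := hX ▸ le_max_right _ _
    have l1 := le_abs_self (F1 D)
    have l1' := neg_abs_le (F1 D)
    have l2 := le_abs_self (F2 D)
    have l2' := neg_abs_le (F2 D)
    rintro (h | h | h | h)
    · exact key _ h (by linarith)
    · exact key _ h (by linarith)
    · exact key _ h (by linarith)
    · exact key _ h (by linarith)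

/-- The vectors `0`, `e_0`, `e_3` and their convex combinations. -/
structure Small (x : V) : Prop where
  a0 : 0 ≤ x.a
  d0 : 0 ≤ x.d
  ad : x.a + x.d ≤ 1
  b0 : x.b = 0
  c0 : x.c = 0

lemma small_qv (b i : ℕ) : Small (qv b i) := by
  unfold qv
  split <;> constructor <;> simp

/-- A lower bound for the new face and upper bounds for the contracting functionals imply that
the new vector lies in the cone. -/
lemma cone_of_bounds (D : V) (u : ℤ) (hu : 3500 < u)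
    (hF : u = 9 * F1 D ∨ u = -(9 * F1 D) ∨ u = 2 * F2 D ∨ u = -(2 * F2 D))
    (g1 : 50 * G1 D ≤ 11 * u) (g1' : -(50 * G1 D) ≤ 11 * u)
    (g2 : 50 * G2 D ≤ 11 * u) (g2' : -(50 * G2 D) ≤ 11 * u)
    (g3 : 250 * (G1 D + G2 D) ≤ 77 * u) (g3' : -(250 * (G1 D + G2 D)) ≤ 77 * u)
    (g4 : 250 * (G1 D - G2 D) ≤ 77 * u) (g4' : -(250 * (G1 D - G2 D)) ≤ 77 * u) :
    cone D = true := by
  rw [cone_iff]
  have hX : ∃ t : ℤ, (t = 9 * F1 D ∨ t = -(9 * F1 D) ∨ t = 2 * F2 D ∨ t = -(2 * F2 D)) ∧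
      9 * F1 D ≤ t ∧ -(9 * F1 D) ≤ t ∧ 2 * F2 D ≤ t ∧ -(2 * F2 D) ≤ t := by
    rcases le_total (9 * |F1 D|) (2 * |F2 D|) with h | h
    · refine ⟨2 * |F2 D|, ?_, ?_, ?_, ?_, ?_⟩
      · rcases abs_choice (F2 D) with h' | h' <;> rw [h'] <;> simp
      all_goals
        have l1 := le_abs_self (F1 D)
        have l1' := neg_abs_le (F1 D)
        have l2 := le_abs_self (F2 D)
        have l2' := neg_abs_le (F2 D)
        linarith
    · refine ⟨9 * |F1 D|, ?_, ?_, ?_, ?_, ?_⟩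
      · rcases abs_choice (F1 D) with h' | h' <;> rw [h'] <;> simp
      all_goals
        have l1 := le_abs_self (F1 D)
        have l1' := neg_abs_le (F1 D)
        have l2 := le_abs_self (F2 D)
        have l2' := neg_abs_le (F2 D)
        linarith
  obtain ⟨t, ht, t1, t2, t3, t4⟩ := hX
  have hut : u ≤ t := by
    rcases hF with h | h | h | h <;> rw [h] <;> assumption
  have hf : Face D t := ⟨by linarith, t1, t2, t3, t4, by linarith, by linarith, by linarith,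
    by linarith, by linarith, by linarith, by linarith, by linarith⟩
  rcases ht with h | h | h | h
  · left; exact h ▸ hf
  · right; left; exact h ▸ hf
  · right; right; left; exact h ▸ hf
  · right; right; right; exact h ▸ hf

/-- The cone is absorbing. -/
theorem cone_step (D x y z : V) (hx : Small x) (hy : Small y) (hz : Small z)
    (h : cone D = true) : cone (ch D x y z) = true := by
  obtain ⟨a, b, c, d⟩ := D
  obtain ⟨xa, xb, xc, xd⟩ := x
  obtain ⟨ya, yb, yc, yd⟩ := y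
  obtain ⟨za, zb, zc, zd⟩ := z
  obtain ⟨x1, x2, x3, rfl, rfl⟩ := hx
  obtain ⟨y1, y2, y3, rfl, rfl⟩ := hy
  obtain ⟨z1, z2, z3, rfl, rfl⟩ := hz
  simp only at x1 x2 x3 y1 y2 y3 z1 z2 z3
  rw [cone_iff] at h
  rcases h with h | h | h | h
  · obtain ⟨b0, f1, f1', f2, f2', g1, g1', g2, g2', g3, g3', g4, g4'⟩ := h
    apply cone_of_bounds _ (9 * F1 (ch ⟨a, b, c, d⟩ ⟨xa, 0, 0, xd⟩ ⟨ya, 0, 0, yd⟩ ⟨za, 0, 0, zd⟩))
      ?_ (Or.inl rfl)
    all_goals simp only [F1, F2, G1, G2, ch, add, sd, Mv] at *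
    all_goals linarith
  · obtain ⟨b0, f1, f1', f2, f2', g1, g1', g2, g2', g3, g3', g4, g4'⟩ := h
    apply cone_of_bounds _ (-(9 * F1 (ch ⟨a, b, c, d⟩ ⟨xa, 0, 0, xd⟩ ⟨ya, 0, 0, yd⟩ ⟨za, 0, 0, zd⟩)))
      ?_ (Or.inr (Or.inl rfl))
    all_goals simp only [F1, F2, G1, G2, ch, add, sd, Mv] at *
    all_goals linarith
  · obtain ⟨b0, f1, f1', f2, f2', g1, g1', g2, g2', g3, g3', g4, g4'⟩ := h
    apply cone_of_bounds _ (-(2 * F2 (ch ⟨a, b, c, d⟩ ⟨xa, 0, 0, xd⟩ ⟨ya, 0, 0, yd⟩ ⟨za, 0, 0, zd⟩)))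
      ?_ (Or.inr (Or.inr (Or.inr rfl)))
    all_goals simp only [F1, F2, G1, G2, ch, add, sd, Mv] at *
    all_goals linarith
  · obtain ⟨b0, f1, f1', f2, f2', g1, g1', g2, g2', g3, g3', g4, g4'⟩ := h
    apply cone_of_bounds _ (2 * F2 (ch ⟨a, b, c, d⟩ ⟨xa, 0, 0, xd⟩ ⟨ya, 0, 0, yd⟩ ⟨za, 0, 0, zd⟩))
      ?_ (Or.inr (Or.inr (Or.inl rfl)))
    all_goals simp only [F1, F2, G1, G2, ch, add, sd, Mv] at *
    all_goals linarith

/-- The cone contains no square configuration. -/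
theorem cone_far (D : V) (h : cone D = true) (h1 : lf D ≤ 10) (h2 : -10 ≤ lf D)
    (h3 : sf D ≤ 14) (h4 : -14 ≤ sf D) (h5 : 2 * sf D - 3 * lf D ≤ 10)
    (h6 : -10 ≤ 2 * sf D - 3 * lf D) : False := by
  obtain ⟨a, b, c, d⟩ := D
  rw [cone_iff] at h
  rcases h with h | h | h | h <;>
  · obtain ⟨b0, f1, f1', f2, f2', g1, g1', g2, g2', g3, g3', g4, g4'⟩ := h
    simp only [F1, F2, G1, G2, lf, sf] at *
    linarith

end Pool.Agent.H42.Cubes
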