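import Mathlib
import Pool.Agent.H42.Cubes.Defs

/-!
# Words and pointers
-/

namespace Pool.Agent.H42.Cubes

/-- The morphism `φ`. -/
def phi : Fin 4 → List (Fin 4)
  | 0 => [0, 2]
  | 1 => [3, 2]
  | 2 => [1]
  | 3 => [0, 1]

/-- The outer morphism `h`. -/
def h : Fin 4 → List ℕ
  | 0 => [2, 3, 1]
  | 1 => [2, 3, 3]
  | 2 => [2, 1, 0]
  | 3 => [2, 3, 0, 2, 0, 0]

/-- The words `φ^n(0)`. -/
def L : ℕ → List (Fin 4)
  | 0 => [0]
  | n + 1 => (L n).flatMap phi

/-- Parikh vectors. -/
def pk (l : List (Fin 4)) : V := ⟨l.count 0, l.count 1, l.count 2, l.count 3⟩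

@[ext] lemma V.ext' {x y : V} (h1 : x.a = y.a) (h2 : x.b = y.b) (h3 : x.c = y.c) (h4 : x.d = y.d) :
    x = y := by
  cases x; cases y; simp_all

lemma pk_append (l l' : List (Fin 4)) : pk (l ++ l') = add (pk l) (pk l') := by
  simp [pk, add, List.count_append]

lemma pk_cons (a : Fin 4) (l : List (Fin 4)) : pk (a :: l) = add (pk [a]) (pk l) := by
  rw [← pk_append]; rfl

lemma pk_phi (a : Fin 4) : pk (phi a) = Mv (pk [a]) := by
  fin_cases a <;> rfl

lemma Mv_add (x y : V) : Mv (add x y) = add (Mv x) (Mv y) := by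
  apply V.ext' <;> simp only [Mv, add] <;> ring

lemma pk_flatMap (l : List (Fin 4)) : pk (l.flatMap phi) = Mv (pk l) := by
  induction l with
  | nil => rfl
  | cons a l ih =>
    rw [List.flatMap_cons, pk_append, ih, pk_phi, ← Mv_add, ← pk_cons]

lemma pk_take_phi (a : Fin 4) (i : ℕ) (hi : i < (phi a).length) :
    pk ((phi a).take i) = qv a.val i := by
  fin_cases a
  all_goals
    simp only [phi, List.length_cons, List.length_nil] at hi
    interval_cases i <;> rfl

lemma length_phi (a : Fin 4) : (phi a).length = pl a.val := by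
  fin_cases a <;> rfl

lemma getD_phi (a : Fin 4) (i : ℕ) (hi : i < (phi a).length) :
    ((phi a).getD i 0).val = cl a.val i := by
  fin_cases a
  all_goals
    simp only [phi, List.length_cons, List.length_nil] at hi
    interval_cases i <;> rfl

lemma length_h (a : Fin 4) : (h a).length = hl a.val := by
  fin_cases a <;> rfl

lemma sum_take_h (a : Fin 4) (i : ℕ) (hi : i < (h a).length) :
    (((h a).take i).sum : ℤ) = hp a.val i := by
  fin_cases a
  all_goals
    simp only [h, List.length_cons, List.length_nil] at hi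
    interval_cases i <;> rfl

lemma lf_add (x y : V) : lf (add x y) = lf x + lf y := by
  simp only [lf, add]; ring

lemma sf_add (x y : V) : sf (add x y) = sf x + sf y := by
  simp only [sf, add]; ring

lemma lf_sd (x y z : V) : lf (sd x y z) = lf x - 2 * lf y + lf z := by
  simp only [lf, sd]; ring

lemma sf_sd (x y z : V) : sf (sd x y z) = sf x - 2 * sf y + sf z := by
  simp only [sf, sd]; ring

lemma length_flatMap_h (l : List (Fin 4)) : ((l.flatMap h).length : ℤ) = lf (pk l) := by
  induction l with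
  | nil => rfl
  | cons a l ih =>
    rw [List.flatMap_cons, List.length_append, pk_cons, lf_add]
    push_cast
    rw [ih]
    congr 1
    fin_cases a <;> rfl

lemma sum_flatMap_h (l : List (Fin 4)) : ((l.flatMap h).sum : ℤ) = sf (pk l) := by
  induction l with
  | nil => rfl
  | cons a l ih =>
    rw [List.flatMap_cons, List.sum_append, pk_cons, sf_add, Nat.cast_add, ih]
    congr 1
    fin_cases a <;> rfl

/-! ### Pointers -/

/-- `x` is the position at offset `i` in the image of the letter at position `j` of `l`. -/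
structure Ptr {β : Type} (f : Fin 4 → List β) (l : List (Fin 4)) (x j i : ℕ) : Prop where
  hj : j < l.length
  hi : i < (f (l.getD j 0)).length
  hx : x = ((l.take j).flatMap f).length + i
  ht : (l.flatMap f).take x = (l.take j).flatMap f ++ (f (l.getD j 0)).take i
  hg : ∀ d, (l.flatMap f).getD x d = (f (l.getD j 0)).getD i d

lemma exists_ptr {β : Type} (f : Fin 4 → List β) (l : List (Fin 4)) (x : ℕ)
    (hx : x < (l.flatMap f).length) : ∃ j i, Ptr f l x j i := by
  induction l generalizing x with
  | nil => simp at hx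
  | cons a l ih =>
    rw [List.flatMap_cons, List.length_append] at hx
    by_cases hxa : x < (f a).length
    · refine ⟨0, x, ⟨by simp, by simpa using hxa, by simp, ?_, ?_⟩⟩
      · simp only [List.flatMap_cons, List.take_zero, List.flatMap_nil, List.nil_append,
          List.getD_cons_zero]
        rw [List.take_append_of_le_length (le_of_lt hxa)]
      · intro d
        simp only [List.flatMap_cons, List.getD_cons_zero]
        rw [List.getD_append _ _ _ _ hxa]
    · push Not at hxa
      obtain ⟨y, rfl⟩ := Nat.exists_eq_add_of_le hxa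
      obtain ⟨j, i, hj, hi, hy, ht, hg⟩ := ih y (by omega)
      refine ⟨j + 1, i, ⟨by simpa using hj, by simpa using hi, ?_, ?_, ?_⟩⟩
      · simp only [List.take_succ_cons, List.flatMap_cons, List.length_append]
        omega
      · simp only [List.flatMap_cons, List.take_succ_cons, List.getD_cons_succ]
        rw [List.take_length_add_append, ht, List.append_assoc]
      · intro d
        simp only [List.flatMap_cons, List.getD_cons_succ]
        rw [List.getD_append_right _ _ _ _ (by omega)]
        rw [Nat.add_sub_cancel_left]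
        exact hg d

lemma len_mono {β : Type} (f : Fin 4 → List β) (l : List (Fin 4)) {j j' : ℕ} (hjj : j ≤ j') :
    ((l.take j).flatMap f).length ≤ ((l.take j').flatMap f).length := by
  obtain ⟨k, rfl⟩ := Nat.exists_eq_add_of_le hjj
  rw [List.take_add, List.flatMap_append, List.length_append]
  omega

lemma take_succ_getD (l : List (Fin 4)) (j : ℕ) (hj : j < l.length) :
    l.take (j + 1) = l.take j ++ [l.getD j 0] := by
  rw [List.take_add_one, List.getElem?_eq_getElem hj, List.getD_eq_getElem _ _ hj]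
  rfl

lemma ptr_lt {β : Type} {f : Fin 4 → List β} {l : List (Fin 4)} {x j i x' j' i' : ℕ}
    (p : Ptr f l x j i) (p' : Ptr f l x' j' i') (h : j < j') : x < x' := by
  have h1 := len_mono f l (show j + 1 ≤ j' from h)
  rw [take_succ_getD l j p.hj, List.flatMap_append, List.length_append] at h1
  simp only [List.flatMap_cons, List.flatMap_nil, List.append_nil] at h1
  have := p.hx
  have := p'.hx
  have := p.hi
  omega

lemma ptr_le {β : Type} {f : Fin 4 → List β} {l : List (Fin 4)} {x j i x' j' i' : ℕ}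
    (p : Ptr f l x j i) (p' : Ptr f l x' j' i') (h : x ≤ x') :
    j ≤ j' ∧ (j = j' → i ≤ i') := by
  constructor
  · by_contra hc
    push Not at hc
    have := ptr_lt p' p hc
    omega
  · rintro rfl
    have := p.hx
    have := p'.hx
    omega

lemma ptr_flag {β : Type} {f : Fin 4 → List β} {l : List (Fin 4)} {x j i x' j' i' : ℕ}
    (p : Ptr f l x j i) (p' : Ptr f l x' j' i') (h : x ≤ x') :
    decide (x < x') = (decide (j < j') || Nat.blt i i') := by
  obtain ⟨h1, h2⟩ := ptr_le p p' h
  have e : (Nat.blt i i') = decide (i < i') := by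
    rw [Bool.eq_iff_iff]; simp
  rw [e, Bool.eq_iff_iff]
  simp only [decide_eq_true_eq, Bool.or_eq_true]
  constructor
  · intro hlt
    rcases Nat.lt_or_eq_of_le h1 with h' | h'
    · exact Or.inl h'
    · right
      subst h'
      have := p.hx
      have := p'.hx
      omega
  · rintro (h' | h')
    · exact ptr_lt p p' h'
    · rcases Nat.lt_or_eq_of_le h1 with h'' | h''
      · exact ptr_lt p p' h''
      · subst h''
        have := p.hx
        have := p'.hx
        omega

lemma ptr_valid {β : Type} {f : Fin 4 → List β} {l : List (Fin 4)} {x j i x' j' i' : ℕ}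
    (p : Ptr f l x j i) (p' : Ptr f l x' j' i') (h : x ≤ x') :
    (decide (j < j') || Nat.ble i i') = true := by
  obtain ⟨h1, h2⟩ := ptr_le p p' h
  simp only [Bool.or_eq_true, decide_eq_true_eq, Nat.ble_eq]
  rcases Nat.lt_or_eq_of_le h1 with h' | h'
  · exact Or.inl h'
  · exact Or.inr (h2 h')

/-! ### States of pointers -/

def st4 (l : List (Fin 4)) (j0 j1 j2 j3 : ℕ) : S4 :=
  ⟨(l.getD j0 0).val, (l.getD j1 0).val, (l.getD j2 0).val, (l.getD j3 0).val,
    decide (j0 < j1), decide (j1 < j2), decide (j2 < j3),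
    sd (pk (l.take j0)) (pk (l.take j1)) (pk (l.take j2)),
    sd (pk (l.take j1)) (pk (l.take j2)) (pk (l.take j3))⟩

lemma pk_ptr {l : List (Fin 4)} {x j i : ℕ} (p : Ptr phi l x j i) :
    pk ((l.flatMap phi).take x) = add (Mv (pk (l.take j))) (qv (l.getD j 0).val i) := by
  rw [p.ht, pk_append, pk_flatMap, pk_take_phi _ _ p.hi]

lemma ch_eq (x y z q r s : V) :
    sd (add (Mv x) q) (add (Mv y) r) (add (Mv z) s) = ch (sd x y z) q r s := by
  apply V.ext' <;> simp only [Mv, add, sd, ch] <;> ring

lemma step4 (l : List (Fin 4)) (x0 x1 x2 x3 : ℕ) (h01 : x0 ≤ x1) (h12 : x1 ≤ x2) (h23 : x2 ≤ x3)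
    (h3 : x3 < (l.flatMap phi).length) :
    ∃ j0 j1 j2 j3 i0 i1 i2 i3, j0 ≤ j1 ∧ j1 ≤ j2 ∧ j2 ≤ j3 ∧ j3 < l.length ∧
      valid4 (st4 l j0 j1 j2 j3) i0 i1 i2 i3 = true ∧
      st4 (l.flatMap phi) x0 x1 x2 x3 = child4 (st4 l j0 j1 j2 j3) i0 i1 i2 i3 := by
  obtain ⟨j0, i0, p0⟩ := exists_ptr phi l x0 (by omega)
  obtain ⟨j1, i1, p1⟩ := exists_ptr phi l x1 (by omega)
  obtain ⟨j2, i2, p2⟩ := exists_ptr phi l x2 (by omega)
  obtain ⟨j3, i3, p3⟩ := exists_ptr phi l x3 h3
  refine ⟨j0, j1, j2, j3, i0, i1, i2, i3, (ptr_le p0 p1 h01).1, (ptr_le p1 p2 h12).1,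
    (ptr_le p2 p3 h23).1, p3.hj, ?_, ?_⟩
  · have hb : ∀ {x j i : ℕ}, Ptr phi l x j i → Nat.blt i (pl (l.getD j 0).val) = true := by
      intro x j i p
      have := p.hi
      rw [length_phi] at this
      simpa using this
    simp only [valid4, st4, Bool.and_eq_true]
    exact ⟨hb p0, hb p1, hb p2, hb p3, ptr_valid p0 p1 h01, ptr_valid p1 p2 h12,
      ptr_valid p2 p3 h23⟩
  · simp only [st4, child4]
    rw [ptr_flag p0 p1 h01, ptr_flag p1 p2 h12, ptr_flag p2 p3 h23, p0.hg, p1.hg, p2.hg, p3.hg,
      getD_phi _ _ p0.hi, getD_phi _ _ p1.hi, getD_phi _ _ p2.hi, getD_phi _ _ p3.hi,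
      pk_ptr p0, pk_ptr p1, pk_ptr p2, pk_ptr p3, ch_eq, ch_eq]

/-! ### The infinite word -/

lemma L_prefix_succ (n : ℕ) : L n <+: L (n + 1) := by
  induction n with
  | zero => exact ⟨[2], rfl⟩
  | succ n ih =>
    obtain ⟨t, ht⟩ := ih
    refine ⟨t.flatMap phi, ?_⟩
    show (L n).flatMap phi ++ t.flatMap phi = (L (n + 1)).flatMap phi
    rw [← List.flatMap_append, ht]

lemma L_prefix {m n : ℕ} (hmn : m ≤ n) : L m <+: L n := by
  induction n, hmn using Nat.le_induction with
  | base => exact List.prefix_rfl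
  | succ n _ ih => exact ih.trans (L_prefix_succ n)

lemma length_le_flatMap {β : Type} (f : Fin 4 → List β) (hf : ∀ a, 1 ≤ (f a).length)
    (l : List (Fin 4)) : l.length ≤ (l.flatMap f).length := by
  induction l with
  | nil => simp
  | cons a l ih =>
    rw [List.flatMap_cons, List.length_append, List.length_cons]
    have := hf a
    omega

lemma L_length (n : ℕ) : n + 1 ≤ (L n).length := by
  induction n with
  | zero => simp [L]
  | succ n ih =>
    have h0 : ∃ t, L n = 0 :: t := by
      obtain ⟨t, ht⟩ := L_prefix (Nat.zero_le n)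
      exact ⟨t, ht.symm⟩
    obtain ⟨t, ht⟩ := h0
    show n + 1 + 1 ≤ ((L n).flatMap phi).length
    rw [ht] at ih ⊢
    rw [List.flatMap_cons, List.length_append]
    have h1 := length_le_flatMap phi (fun a => by fin_cases a <;> simp [phi]) t
    have h2 : (phi 0).length = 2 := rfl
    rw [List.length_cons] at ih
    omega

/-- The finite words `h(φ^n(0))`. -/
def w (n : ℕ) : List ℕ := (L n).flatMap h

lemma w_length (n : ℕ) : n + 1 ≤ (w n).length :=
  (L_length n).trans (length_le_flatMap h (fun a => by fin_cases a <;> simp [h]) _)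

lemma w_prefix {m n : ℕ} (hmn : m ≤ n) : w m <+: w n := by
  obtain ⟨t, ht⟩ := L_prefix hmn
  refine ⟨t.flatMap h, ?_⟩
  unfold w
  rw [← List.flatMap_append, ht]

/-- The infinite word. -/
def W (x : ℕ) : ℕ := (w x).getD x 0

lemma W_eq {x n : ℕ} (hxn : x ≤ n) : W x = (w n).getD x 0 := by
  obtain ⟨t, ht⟩ := w_prefix hxn
  unfold W
  rw [← ht, List.getD_append]
  have := w_length x
  omega

lemma mem_w (n : ℕ) : ∀ y ∈ w n, y < 4 := by
  intro y hy
  unfold w at hy
  rw [List.mem_flatMap] at hy
  obtain ⟨a, _, ha⟩ := hy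
  revert ha
  fin_cases a <;> simp only [h, List.mem_cons, List.not_mem_nil, or_false] <;> omega

lemma W_lt (x : ℕ) : W x < 4 := by
  unfold W
  have := w_length x
  rw [List.getD_eq_getElem _ _ (by omega)]
  exact mem_w x _ (List.getElem_mem _)

lemma sum_take (l : List ℕ) (i n : ℕ) (hn : i + n ≤ l.length) :
    (l.take (i + n)).sum = (l.take i).sum + ∑ k ∈ Finset.range n, l.getD (i + k) 0 := by
  induction n with
  | zero => simp
  | succ n ih =>
    rw [Finset.sum_range_succ, ← Nat.add_assoc, ← Nat.add_assoc, ← ih (by omega),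
      List.take_add_one, List.sum_append, List.getElem?_eq_getElem (by omega),
      List.getD_eq_getElem _ _ (by omega)]
    simp

lemma sum_W (i n N : ℕ) (hN : i + n ≤ N) :
    ((w N).take (i + n)).sum = ((w N).take i).sum + ∑ k ∈ Finset.range n, W (i + k) := by
  have := w_length N
  rw [sum_take _ _ _ (by omega)]
  congr 1
  apply Finset.sum_congr rfl
  intro k hk
  rw [Finset.mem_range] at hk
  rw [W_eq (n := N) (by omega)]

end Pool.Agent.H42.Cubes
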