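import Pool.Agent.H42.Cubes.Cone
import Pool.Agent.H42.Cubes.Word
import Pool.Agent.H42.Cubes.Codes
import Pool.Agent.H42.Cubes.Chk3
import Pool.Agent.H42.Cubes.Chk4
import Pool.Agent.H42.Cubes.ChkF

/-!
# There is no additive cube in the word `W`
-/

namespace Pool.Agent.H42.Cubes

lemma cl_lt (b i : ℕ) : cl b i < 4 := by
  unfold cl
  split <;> omega

lemma pl_le (b : ℕ) : pl b ≤ 2 := by
  unfold pl
  split <;> omega

/-- A dead state. -/
def Dead (s : S3) : Prop := cone s.D = true ∨ ∃ n ∈ L3, s = dec3 n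

/-- A live state. -/
def Live (s : S4) : Prop := ∃ n ∈ L4, s = dec4 n

lemma dead_of_dead (s : S3) (h0 : s.b0 < 4) (h1 : s.b1 < 4) (h2 : s.b2 < 4)
    (h : dead s = true) : Dead s := by
  simp only [dead, Bool.or_eq_true] at h
  rcases h with h | h
  · exact Or.inl h
  · exact Or.inr (inT3_spec s h0 h1 h2 h)

lemma lt_two_of_valid {i b : ℕ} (h : Nat.blt i (pl b) = true) : i = 0 ∨ i = 1 := by
  have h1 : i < pl b := by simpa using h
  have := pl_le b
  omega

lemma dead_step (s : S3) (i0 i1 i2 : ℕ) (hv : valid3 s i0 i1 i2 = true) (hs : Dead s) :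
    Dead (child3 s i0 i1 i2) := by
  rcases hs with hs | ⟨n, hn, rfl⟩
  · left
    exact cone_step _ _ _ _ (small_qv _ _) (small_qv _ _) (small_qv _ _) hs
  · have hc := (all_iff _ _).1 closed3 n hn
    simp only [chk3, Bool.and_eq_true] at hc
    obtain ⟨c000, c001, c010, c011, c100, c101, c110, c111⟩ := hc
    have hv' := hv
    simp only [valid3, Bool.and_eq_true] at hv'
    have k0 := lt_two_of_valid hv'.1
    have k1 := lt_two_of_valid hv'.2.1
    have k2 := lt_two_of_valid hv'.2.2.1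
    apply dead_of_dead _ (cl_lt _ _) (cl_lt _ _) (cl_lt _ _)
    rcases k0 with rfl | rfl <;> rcases k1 with rfl | rfl <;> rcases k2 with rfl | rfl
    · simpa only [hv, Bool.not_true, Bool.false_or] using c000
    · simpa only [hv, Bool.not_true, Bool.false_or] using c001
    · simpa only [hv, Bool.not_true, Bool.false_or] using c010
    · simpa only [hv, Bool.not_true, Bool.false_or] using c011
    · simpa only [hv, Bool.not_true, Bool.false_or] using c100
    · simpa only [hv, Bool.not_true, Bool.false_or] using c101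
    · simpa only [hv, Bool.not_true, Bool.false_or] using c110
    · simpa only [hv, Bool.not_true, Bool.false_or] using c111

/-- The invariant of four pointers. -/
def Inv (s : S4) : Prop := Live s ∨ Dead s.left ∨ Dead s.right

lemma inv_of_ok4 (s : S4) (h0 : s.b0 < 4) (h1 : s.b1 < 4) (h2 : s.b2 < 4) (h3 : s.b3 < 4)
    (h : ok4 s = true) : Inv s := by
  simp only [ok4, Bool.or_eq_true] at h
  rcases h with h | h | h | h | h
  · exact Or.inr (Or.inl (Or.inl h))
  · exact Or.inr (Or.inr (Or.inl h))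
  · exact Or.inl (inT4_spec s h0 h1 h2 h3 h)
  · exact Or.inr (Or.inl (Or.inr (inT3_spec s.left h0 h1 h2 h)))
  · exact Or.inr (Or.inr (Or.inr (inT3_spec s.right h1 h2 h3 h)))

lemma inv_step (s : S4) (i0 i1 i2 i3 : ℕ) (hv : valid4 s i0 i1 i2 i3 = true) (hs : Inv s) :
    Inv (child4 s i0 i1 i2 i3) := by
  have hv' := hv
  simp only [valid4, Bool.and_eq_true] at hv'
  obtain ⟨v0, v1, v2, v3, w0, w1, w2⟩ := hv'
  rcases hs with ⟨n, hn, rfl⟩ | hs | hs
  · have hc := (all_iff _ _).1 closed4 n hn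
    simp only [chk4, chk4aux, Bool.and_eq_true] at hc
    apply inv_of_ok4 _ (cl_lt _ _) (cl_lt _ _) (cl_lt _ _) (cl_lt _ _)
    obtain ⟨⟨c0, c1, c2, c3⟩, ⟨c4, c5, c6, c7⟩, ⟨c8, c9, c10, c11⟩, c12, c13, c14, c15⟩ := hc
    rcases lt_two_of_valid v0 with rfl | rfl <;> rcases lt_two_of_valid v1 with rfl | rfl <;>
    rcases lt_two_of_valid v2 with rfl | rfl <;> rcases lt_two_of_valid v3 with rfl | rfl
    · simpa only [hv, Bool.not_true, Bool.false_or] using c0
    · simpa only [hv, Bool.not_true, Bool.false_or] using c1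
    · simpa only [hv, Bool.not_true, Bool.false_or] using c2
    · simpa only [hv, Bool.not_true, Bool.false_or] using c3
    · simpa only [hv, Bool.not_true, Bool.false_or] using c4
    · simpa only [hv, Bool.not_true, Bool.false_or] using c5
    · simpa only [hv, Bool.not_true, Bool.false_or] using c6
    · simpa only [hv, Bool.not_true, Bool.false_or] using c7
    · simpa only [hv, Bool.not_true, Bool.false_or] using c8
    · simpa only [hv, Bool.not_true, Bool.false_or] using c9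
    · simpa only [hv, Bool.not_true, Bool.false_or] using c10
    · simpa only [hv, Bool.not_true, Bool.false_or] using c11
    · simpa only [hv, Bool.not_true, Bool.false_or] using c12
    · simpa only [hv, Bool.not_true, Bool.false_or] using c13
    · simpa only [hv, Bool.not_true, Bool.false_or] using c14
    · simpa only [hv, Bool.not_true, Bool.false_or] using c15
  · right; left
    apply dead_step s.left i0 i1 i2 _ hs
    simp only [valid3, S4.left, Bool.and_eq_true]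
    exact ⟨v0, v1, v2, w0, w1⟩
  · right; right
    apply dead_step s.right i1 i2 i3 _ hs
    simp only [valid3, S4.right, Bool.and_eq_true]
    exact ⟨v1, v2, v3, w1, w2⟩

theorem inv_L (n : ℕ) : ∀ j0 j1 j2 j3 : ℕ, j0 ≤ j1 → j1 ≤ j2 → j2 ≤ j3 → j3 < (L n).length →
    Inv (st4 (L n) j0 j1 j2 j3) := by
  induction n with
  | zero =>
    intro j0 j1 j2 j3 h01 h12 h23 h3
    simp only [L, List.length_cons, List.length_nil] at h3
    have e3 : j3 = 0 := by omega
    have e2 : j2 = 0 := by omega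
    have e1 : j1 = 0 := by omega
    have e0 : j0 = 0 := by omega
    subst e3 e2 e1 e0
    left
    have hr : st4 (L 0) 0 0 0 0 =
        ⟨0, 0, 0, 0, false, false, false, ⟨0, 0, 0, 0⟩, ⟨0, 0, 0, 0⟩⟩ := rfl
    rw [hr]
    exact inT4_spec _ (by norm_num) (by norm_num) (by norm_num) (by norm_num) root4
  | succ n ih =>
    intro x0 x1 x2 x3 h01 h12 h23 h3
    obtain ⟨j0, j1, j2, j3, i0, i1, i2, i3, k01, k12, k23, k3, hv, he⟩ :=
      step4 (L n) x0 x1 x2 x3 h01 h12 h23 h3
    show Inv (st4 ((L n).flatMap phi) x0 x1 x2 x3)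
    rw [he]
    exact inv_step _ _ _ _ _ hv (ih j0 j1 j2 j3 k01 k12 k23 k3)

/-! ### Square configurations -/

/-- Offsets of a square configuration. -/
structure Sq (s : S3) (i0 i1 i2 : ℕ) : Prop where
  l0 : i0 < hl s.b0
  l1 : i1 < hl s.b1
  l2 : i2 < hl s.b2
  f0 : (s.f0 || Nat.blt i0 i1) = true
  f1 : (s.f1 || Nat.blt i1 i2) = true
  el : lf s.D + ((i0 : ℤ) - 2 * i1 + i2) = 0
  es : sf s.D + (hp s.b0 i0 - 2 * hp s.b1 i1 + hp s.b2 i2) = 0

lemma hp_bounds (b i : ℕ) (hb : b < 4) (hi : i < hl b) :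
    i < 6 ∧ 0 ≤ hp b i ∧ hp b i ≤ 7 ∧ -1 ≤ 2 * hp b i - 3 * i ∧ 2 * hp b i - 3 * i ≤ 4 := by
  interval_cases b <;> simp only [hl] at hi <;> interval_cases i <;> simp [hp]

lemma anyUpTo_of (p : ℕ → Bool) (n i : ℕ) (hi : i < n) (hp : p i = true) :
    anyUpTo p n = true := by
  induction n with
  | zero => omega
  | succ n ih =>
    simp only [anyUpTo, Bool.or_eq_true]
    rcases Nat.lt_succ_iff_lt_or_eq.1 hi with h | h
    · exact Or.inr (ih h)
    · subst h; exact Or.inl hp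

lemma sq_bounds (s : S3) (i0 i1 i2 : ℕ) (h0 : s.b0 < 4) (h1 : s.b1 < 4) (h2 : s.b2 < 4)
    (h : Sq s i0 i1 i2) : lf s.D ≤ 10 ∧ -10 ≤ lf s.D ∧ sf s.D ≤ 14 ∧ -14 ≤ sf s.D ∧
      2 * sf s.D - 3 * lf s.D ≤ 10 ∧ -10 ≤ 2 * sf s.D - 3 * lf s.D := by
  obtain ⟨a1, a2, a3, a4, a5⟩ := hp_bounds _ _ h0 h.l0
  obtain ⟨b1, b2, b3, b4, b5⟩ := hp_bounds _ _ h1 h.l1
  obtain ⟨c1, c2, c3, c4, c5⟩ := hp_bounds _ _ h2 h.l2
  have el := h.el
  have es := h.es
  refine ⟨by omega, by omega, by omega, by omega, by omega, by omega⟩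

lemma hasSq_of (s : S3) (i0 i1 i2 : ℕ) (h0 : s.b0 < 4) (h1 : s.b1 < 4) (h2 : s.b2 < 4)
    (h : Sq s i0 i1 i2) : hasSq s = true := by
  obtain ⟨q1, q2, q3, q4, -, -⟩ := sq_bounds s i0 i1 i2 h0 h1 h2 h
  unfold hasSq
  rw [Bool.and_eq_true, Bool.and_eq_true]
  refine ⟨?_, ?_, ?_⟩
  · rw [Nat.ble_eq]; omega
  · rw [Nat.ble_eq]; omega
  · apply anyUpTo_of _ _ _ h.l0
    apply anyUpTo_of _ _ _ h.l1
    have e : (2 * (i1 : ℤ) - i0 - lf s.D) = Int.ofNat i2 := by
      have := h.el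
      simp only [Int.ofNat_eq_natCast]
      omega
    unfold sqs
    rw [e]
    simp only [Bool.and_eq_true]
    refine ⟨by simpa using h.l2, h.f0, h.f1, ?_⟩
    rw [decide_eq_true_eq]
    exact h.es

lemma no_sq_of_dead (s : S3) (i0 i1 i2 : ℕ) (h0 : s.b0 < 4) (h1 : s.b1 < 4) (h2 : s.b2 < 4)
    (h : Sq s i0 i1 i2) (hd : Dead s) : False := by
  rcases hd with hd | ⟨n, hn, rfl⟩
  · obtain ⟨q1, q2, q3, q4, q5, q6⟩ := sq_bounds s i0 i1 i2 h0 h1 h2 h
    exact cone_far s.D hd q1 q2 q3 q4 q5 q6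
  · have hc := (all_iff _ _).1 noSq3 n hn
    rw [hasSq_of _ _ _ _ h0 h1 h2 h] at hc
    simp at hc

lemma hasCb_of (s : S4) (i0 i1 i2 i3 : ℕ) (hl' : Sq s.left i0 i1 i2) (hr : Sq s.right i1 i2 i3) :
    hasCb s = true := by
  unfold hasCb
  apply anyUpTo_of _ _ _ hl'.l0
  apply anyUpTo_of _ _ _ hl'.l1
  have e : (2 * (i1 : ℤ) - i0 - lf s.D) = Int.ofNat i2 := by
    have h : lf s.D + ((i0 : ℤ) - 2 * i1 + i2) = 0 := hl'.el
    simp only [Int.ofNat_eq_natCast]
    omega
  have e' : (2 * (i2 : ℤ) - i1 - lf s.E) = Int.ofNat i3 := by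
    have h : lf s.E + ((i1 : ℤ) - 2 * i2 + i3) = 0 := hr.el
    simp only [Int.ofNat_eq_natCast]
    omega
  unfold cbs
  rw [e]
  simp only []
  rw [e']
  simp only [Bool.and_eq_true]
  have m2 : i2 < hl s.b2 := hl'.l2
  have m3 : i3 < hl s.b3 := hr.l2
  refine ⟨⟨by simpa using m2, hl'.f0, hl'.f1, ?_⟩, by simpa using m3, hr.f1, ?_⟩
  · rw [decide_eq_true_eq]
    exact hl'.es
  · rw [decide_eq_true_eq]
    exact hr.es

/-- No additive cube. -/
theorem no_cube (i n : ℕ) (hn : 0 < n)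
    (h1 : ∑ k ∈ Finset.range n, W (i + k) = ∑ k ∈ Finset.range n, W (i + n + k))
    (h2 : ∑ k ∈ Finset.range n, W (i + n + k) = ∑ k ∈ Finset.range n, W (i + 2 * n + k)) :
    False := by
  obtain ⟨N, hN⟩ : ∃ N, N = i + 3 * n := ⟨_, rfl⟩
  have hlen := w_length N
  have s1 := sum_W i n N (by omega)
  have s2 := sum_W (i + n) n N (by omega)
  have s3 := sum_W (i + 2 * n) n N (by omega)
  obtain ⟨j0, i0, p0⟩ := exists_ptr h (L N) i (by unfold w at hlen; omega)
  obtain ⟨j1, i1, p1⟩ := exists_ptr h (L N) (i + n) (by unfold w at hlen; omega)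
  obtain ⟨j2, i2, p2⟩ := exists_ptr h (L N) (i + n + n) (by unfold w at hlen; omega)
  obtain ⟨j3, i3, p3⟩ := exists_ptr h (L N) (i + 2 * n + n) (by unfold w at hlen; omega)
  -- positions and sums
  have hpos : ∀ {x j i : ℕ}, Ptr h (L N) x j i →
      (x : ℤ) = lf (pk ((L N).take j)) + i := by
    intro x j i p
    rw [p.hx]
    push_cast
    rw [length_flatMap_h]
  have hsum : ∀ {x j i : ℕ}, Ptr h (L N) x j i →
      (((w N).take x).sum : ℤ) = sf (pk ((L N).take j)) + hp ((L N).getD j 0).val i := by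
    intro x j i p
    show ((((L N).flatMap h).take x).sum : ℤ) = _
    rw [p.ht, List.sum_append, Nat.cast_add, sum_flatMap_h, sum_take_h _ _ p.hi]
  have hlt : ∀ {x j i : ℕ}, Ptr h (L N) x j i → i < hl ((L N).getD j 0).val := by
    intro x j i p
    rw [← length_h]
    exact p.hi
  have a0 := hpos p0
  have a1 := hpos p1
  have a2 := hpos p2
  have a3 := hpos p3
  have b0 := hsum p0
  have b1 := hsum p1
  have b2 := hsum p2
  have b3 := hsum p3
  have c1 : (((w N).take (i + n)).sum : ℤ) = ((w N).take i).sum +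
      ((∑ k ∈ Finset.range n, W (i + k) : ℕ) : ℤ) := by exact_mod_cast s1
  have c2 : (((w N).take (i + n + n)).sum : ℤ) = ((w N).take (i + n)).sum +
      ((∑ k ∈ Finset.range n, W (i + n + k) : ℕ) : ℤ) := by exact_mod_cast s2
  have c3 : (((w N).take (i + 2 * n + n)).sum : ℤ) = ((w N).take (i + n + n)).sum +
      ((∑ k ∈ Finset.range n, W (i + 2 * n + k) : ℕ) : ℤ) := by
    have e : i + n + n = i + 2 * n := by ring
    rw [e]
    exact_mod_cast s3
  rw [← h2, ← h1] at c3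
  rw [← h1] at c2
  generalize ((∑ k ∈ Finset.range n, W (i + k) : ℕ) : ℤ) = S at *
  -- the state
  have hinv := inv_L N j0 j1 j2 j3 (ptr_le p0 p1 (by omega)).1 (ptr_le p1 p2 (by omega)).1
    (ptr_le p2 p3 (by omega)).1 p3.hj
  have hb : ∀ j, ((L N).getD j 0).val < 4 := fun j => ((L N).getD j 0).isLt
  have fl : ∀ {x j i x' j' i' : ℕ}, Ptr h (L N) x j i → Ptr h (L N) x' j' i' → x < x' →
      (decide (j < j') || Nat.blt i i') = true := by
    intro x j i x' j' i' p p' hx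
    rw [← ptr_flag p p' hx.le]
    simpa using hx
  have sq1 : Sq (st4 (L N) j0 j1 j2 j3).left i0 i1 i2 := by
    refine ⟨hlt p0, hlt p1, hlt p2, fl p0 p1 (by omega), fl p1 p2 (by omega), ?_, ?_⟩
    · simp only [st4, S4.left, lf_sd]
      push_cast at a0 a1 a2
      linarith
    · simp only [st4, S4.left, sf_sd]
      linarith
  have sq2 : Sq (st4 (L N) j0 j1 j2 j3).right i1 i2 i3 := by
    refine ⟨hlt p1, hlt p2, hlt p3, fl p1 p2 (by omega), fl p2 p3 (by omega), ?_, ?_⟩
    · simp only [st4, S4.right, lf_sd]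
      push_cast at a1 a2 a3
      linarith
    · simp only [st4, S4.right, sf_sd]
      linarith
  rcases hinv with ⟨m, hm, he⟩ | hd | hd
  · have hc := (all_iff _ _).1 noCb4 m hm
    rw [← he, hasCb_of _ _ _ _ _ sq1 sq2] at hc
    simp at hc
  · exact no_sq_of_dead _ _ _ _ (hb _) (hb _) (hb _) sq1 hd
  · exact no_sq_of_dead _ _ _ _ (hb _) (hb _) (hb _) sq2 hd

end Pool.Agent.H42.Cubes
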